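import Mathlib

set_option autoImplicit false

/-! Rational functions which are regular at a point, and their values. -/

namespace Pool.Agent.N674.HNUNI

noncomputable section

section

variable {k K : Type} [Field k] [Field K] [Algebra k K]

/-- the rational functions which are regular at `c` -/
def Oc (k : Type) {K : Type} [Field k] [Field K] [Algebra k K] (c : K) :
    Subalgebra k (RatFunc K) where
  carrier := {f | Polynomial.eval₂ (RingHom.id K) c f.denom ≠ 0}
  mul_mem' := by
    intro x y hx hy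
    obtain ⟨p, hp⟩ := RatFunc.denom_mul_dvd x y
    intro h0
    have h1 : Polynomial.eval₂ (RingHom.id K) c (x.denom * y.denom) ≠ 0 := by
      rw [Polynomial.eval₂_mul]
      exact mul_ne_zero hx hy
    rw [hp, Polynomial.eval₂_mul, h0, zero_mul] at h1
    exact h1 rfl
  add_mem' := by
    intro x y hx hy
    obtain ⟨p, hp⟩ := RatFunc.denom_add_dvd x y
    intro h0
    have h1 : Polynomial.eval₂ (RingHom.id K) c (x.denom * y.denom) ≠ 0 := by
      rw [Polynomial.eval₂_mul]
      exact mul_ne_zero hx hy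
    rw [hp, Polynomial.eval₂_mul, h0, zero_mul] at h1
    exact h1 rfl
  algebraMap_mem' := by
    intro r
    have h1 : algebraMap k (RatFunc K) r = RatFunc.C (algebraMap k K r) := by
      rw [← RatFunc.algebraMap_eq_C, ← IsScalarTower.algebraMap_apply]
    show Polynomial.eval₂ (RingHom.id K) c (algebraMap k (RatFunc K) r).denom ≠ 0
    rw [h1, RatFunc.denom_C, Polynomial.eval₂_one]
    exact one_ne_zero

lemma mem_Oc {c : K} {f : RatFunc K} :
    f ∈ Oc k c ↔ Polynomial.eval₂ (RingHom.id K) c f.denom ≠ 0 := Iff.rfl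

/-- the value at `c` -/
def ev (k : Type) {K : Type} [Field k] [Field K] [Algebra k K] (c : K) : Oc k c →ₐ[k] K where
  toFun f := RatFunc.eval (RingHom.id K) c f.1
  map_one' := RatFunc.eval_one _ _
  map_zero' := RatFunc.eval_zero _ _
  map_mul' := fun x y => RatFunc.eval_mul _ _ x.2 y.2
  map_add' := fun x y => RatFunc.eval_add _ _ x.2 y.2
  commutes' := by
    intro r
    have h1 : algebraMap k (RatFunc K) r = RatFunc.C (algebraMap k K r) := by
      rw [← RatFunc.algebraMap_eq_C, ← IsScalarTower.algebraMap_apply]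
    show RatFunc.eval (RingHom.id K) c (algebraMap k (RatFunc K) r) = _
    rw [h1, RatFunc.eval_C]
    rfl

lemma C_mem (c a : K) : RatFunc.C a ∈ Oc k c := by
  rw [mem_Oc, RatFunc.denom_C, Polynomial.eval₂_one]
  exact one_ne_zero

lemma X_mem (c : K) : (RatFunc.X : RatFunc K) ∈ Oc k c := by
  rw [mem_Oc, RatFunc.denom_X, Polynomial.eval₂_one]
  exact one_ne_zero

lemma ev_C (c a : K) : ev k c ⟨RatFunc.C a, C_mem c a⟩ = a := RatFunc.eval_C _ _

lemma ev_X (c : K) : ev k c ⟨RatFunc.X, X_mem c⟩ = c := RatFunc.eval_X _ _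

/-- `Oc` is a valuation ring -/
lemma inv_mem {c : K} {f : RatFunc K} (hf : f ∉ Oc k c) :
    ∃ h : f⁻¹ ∈ Oc k c, ev k c ⟨f⁻¹, h⟩ = 0 := by
  have h0 : Polynomial.eval₂ (RingHom.id K) c f.denom = 0 := by
    by_contra h
    exact hf h
  have hne : f ≠ 0 := by
    rintro rfl
    exact hf (Oc k c).zero_mem
  have h1 : Polynomial.eval₂ (RingHom.id K) c f.num ≠ 0 := by
    intro h2
    obtain ⟨a, b, hab⟩ := RatFunc.isCoprime_num_denom f
    have h3 := congrArg (Polynomial.eval₂ (RingHom.id K) c) hab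
    rw [Polynomial.eval₂_add, Polynomial.eval₂_mul, Polynomial.eval₂_mul, h0, h2, mul_zero,
      mul_zero, add_zero, Polynomial.eval₂_one] at h3
    exact zero_ne_one h3
  have h2 : f⁻¹ ∈ Oc k c := by
    obtain ⟨p, hp⟩ := RatFunc.denom_inv_dvd hne
    intro h3
    rw [hp, Polynomial.eval₂_mul, h3, zero_mul] at h1
    exact h1 rfl
  refine ⟨h2, ?_⟩
  show RatFunc.eval (RingHom.id K) c f⁻¹ = 0
  obtain ⟨p, hp⟩ := (RatFunc.associated_num_inv hne).symm.dvd
  unfold RatFunc.eval
  rw [hp, Polynomial.eval₂_mul, h0, zero_mul, zero_div]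

lemma ev_ne_zero {c : K} {f : RatFunc K} (hf : f ∈ Oc k c)
    (h : Polynomial.eval₂ (RingHom.id K) c f.num ≠ 0) : ev k c ⟨f, hf⟩ ≠ 0 := by
  show RatFunc.eval (RingHom.id K) c f ≠ 0
  unfold RatFunc.eval
  exact div_ne_zero h hf

/-- finitely many rational functions are regular and do not vanish at a suitable point -/
lemma exists_good [Infinite k] {ι : Type} (s : Finset ι) (F : ι → RatFunc K) :
    ∃ c : k, ∀ i ∈ s, ∃ h : F i ∈ Oc k (algebraMap k K c),
      F i ≠ 0 → ev k (algebraMap k K c) ⟨F i, h⟩ ≠ 0 := by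
  classical
  let Q : Polynomial K := ∏ i ∈ s, ((F i).denom * (if F i = 0 then 1 else (F i).num))
  have hQ : Q ≠ 0 := by
    refine Finset.prod_ne_zero_iff.2 fun i _ => mul_ne_zero (RatFunc.denom_ne_zero _) ?_
    split_ifs with h
    · exact one_ne_zero
    · exact RatFunc.num_ne_zero h
  have hinj : Function.Injective (algebraMap k K) := (algebraMap k K).injective
  obtain ⟨c, hc⟩ := Infinite.exists_notMem_finset
    (Q.roots.toFinset.preimage (algebraMap k K) hinj.injOn)
  rw [Finset.mem_preimage, Multiset.mem_toFinset, Polynomial.mem_roots hQ] at hc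
  refine ⟨c, fun i hi => ?_⟩
  have h1 : Polynomial.eval₂ (RingHom.id K) (algebraMap k K c) ((F i).denom *
      (if F i = 0 then 1 else (F i).num)) ≠ 0 := by
    intro h2
    apply hc
    obtain ⟨p, hp⟩ := Finset.dvd_prod_of_mem
      (fun i => (F i).denom * (if F i = 0 then 1 else (F i).num)) hi
    show Polynomial.eval (algebraMap k K c) Q = 0
    have h3 : Q = ((F i).denom * (if F i = 0 then 1 else (F i).num)) * p := hp
    have h4 : Polynomial.eval (algebraMap k K c) ((F i).denom *
      (if F i = 0 then 1 else (F i).num)) = 0 := h2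
    rw [h3, Polynomial.eval_mul, h4, zero_mul]
  rw [Polynomial.eval₂_mul] at h1
  have h2 : F i ∈ Oc k (algebraMap k K c) := left_ne_zero_of_mul h1
  refine ⟨h2, fun hne => ev_ne_zero h2 ?_⟩
  have h3 := right_ne_zero_of_mul h1
  rwa [if_neg hne] at h3

end

end

end Pool.Agent.N674.HNUNI
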