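import Mathlib
import Pool.Agent.N674.HN.Loc
import Pool.Agent.N225.CV.Drop

set_option autoImplicit false

/-! Specialisation of one variable for subfields of fields of rational functions. -/

namespace Pool.Agent.N674.HNUNI

open Set

noncomputable section

section

variable {L K : Type} [Field L] [Algebra ℂ L] [Field K] [Algebra ℂ K] {n : ℕ}

/-- the variable and the constants are a transcendence basis -/
lemma basis_ratFunc {τ : Fin n → K} (hτ : IsTranscendenceBasis ℂ τ) :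
    IsTranscendenceBasis ℂ (Sum.elim (fun _ : Unit => (RatFunc.X : RatFunc K))
      (algebraMap K (RatFunc K) ∘ τ)) := by
  have h1 : IsTranscendenceBasis K (fun _ : Unit => (Polynomial.X : Polynomial K)) :=
    IsTranscendenceBasis.polynomial Unit K
  have hal : Algebra.IsAlgebraic (Polynomial K) (RatFunc K) :=
    (IsFractionRing.comap_isAlgebraic_iff (A := Polynomial K) (K := RatFunc K)
      (C := RatFunc K)).2 inferInstance
  have h2 : IsTranscendenceBasis K (algebraMap (Polynomial K) (RatFunc K) ∘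
      fun _ : Unit => (Polynomial.X : Polynomial K)) := h1.algebraMap_comp (A := RatFunc K)
  have h3 : (algebraMap (Polynomial K) (RatFunc K) ∘
      fun _ : Unit => (Polynomial.X : Polynomial K)) =
      fun _ : Unit => (RatFunc.X : RatFunc K) := by
    funext _
    exact RatFunc.algebraMap_X
  rw [h3] at h2
  exact hτ.sumElim_comp h2

lemma trdeg_ratFunc {τ : Fin n → K} (hτ : IsTranscendenceBasis ℂ τ) :
    Algebra.trdeg ℂ (RatFunc K) = ((n + 1 : ℕ) : Cardinal) := by
  rw [← (basis_ratFunc hτ).cardinalMk_eq_trdeg]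
  simp [add_comm]

theorem step {τ : Fin n → K} (hτ : IsTranscendenceBasis ℂ τ) (hL : Algebra.trdeg ℂ L ≤ n)
    (σ : L →ₐ[ℂ] RatFunc K) (g : Fin n → L)
    (hu : AlgebraicIndependent ℂ (fun o : Option (Fin n) => o.elim RatFunc.X (σ ∘ g))) :
    Nonempty (L →ₐ[ℂ] K) := by
  classical
  let u : Option (Fin n) → RatFunc K := fun o => o.elim RatFunc.X (σ ∘ g)
  have hub : IsTranscendenceBasis ℂ u := by
    refine AlgebraicIndependent.isTranscendenceBasis_of_trdeg_le_of_finite hu ?_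
    rw [trdeg_ratFunc hτ]
    simp
  have hualg := hub.isAlgebraic
  have hp : ∀ i : Fin n, ∃ p : Polynomial (Algebra.adjoin ℂ (range u)), p ≠ 0 ∧
      Polynomial.aeval (RatFunc.C (τ i)) p = 0 := fun i =>
    hualg.isAlgebraic (RatFunc.C (τ i))
  choose p hp0 hpr using hp
  let F : Fin n ⊕ Fin n → RatFunc K :=
    Sum.elim (fun i => ((p i).leadingCoeff : RatFunc K)) (fun k => σ (g k))
  obtain ⟨c, hc⟩ := exists_good (k := ℂ) (Finset.univ) F
  let O : Subalgebra ℂ (RatFunc K) := Oc ℂ (algebraMap ℂ K c)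
  let E : O →ₐ[ℂ] K := ev ℂ (algebraMap ℂ K c)
  have hgO : ∀ k, σ (g k) ∈ O := fun k => by
    obtain ⟨h, -⟩ := hc (Sum.inr k) (Finset.mem_univ _)
    exact h
  let V : Subalgebra ℂ L := O.comap σ
  let ψ : V →ₐ[ℂ] K := E.comp ((σ.comp V.val).codRestrict O (fun x => x.2))
  let g' : Fin n → V := fun k => ⟨g k, hgO k⟩
  let D' : Subalgebra ℂ K := Algebra.adjoin ℂ (range (ψ ∘ g'))
  have hD : ∀ d ∈ Algebra.adjoin ℂ (range u), ∃ h : d ∈ O, E ⟨d, h⟩ ∈ D' := by
    intro d hd
    induction hd using Algebra.adjoin_induction with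
    | mem x hx =>
      obtain ⟨o, rfl⟩ := hx
      cases o with
      | none =>
        refine ⟨X_mem _, ?_⟩
        have h1 : E ⟨u none, X_mem (k := ℂ) _⟩ = algebraMap ℂ K c := ev_X (k := ℂ) _
        rw [h1]
        exact D'.algebraMap_mem c
      | some k =>
        refine ⟨hgO k, ?_⟩
        exact Algebra.subset_adjoin ⟨k, rfl⟩
    | algebraMap r =>
      refine ⟨O.algebraMap_mem r, ?_⟩
      have h1 : E ⟨algebraMap ℂ (RatFunc K) r, O.algebraMap_mem r⟩ = algebraMap ℂ K r :=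
        E.commutes r
      rw [h1]
      exact D'.algebraMap_mem r
    | add x y _ _ hx hy =>
      obtain ⟨hx1, hx2⟩ := hx
      obtain ⟨hy1, hy2⟩ := hy
      refine ⟨O.add_mem hx1 hy1, ?_⟩
      have h1 : E ⟨x + y, O.add_mem hx1 hy1⟩ = E ⟨x, hx1⟩ + E ⟨y, hy1⟩ :=
        map_add E ⟨x, hx1⟩ ⟨y, hy1⟩
      rw [h1]
      exact D'.add_mem hx2 hy2
    | mul x y _ _ hx hy =>
      obtain ⟨hx1, hx2⟩ := hx
      obtain ⟨hy1, hy2⟩ := hy
      refine ⟨O.mul_mem hx1 hy1, ?_⟩
      have h1 : E ⟨x * y, O.mul_mem hx1 hy1⟩ = E ⟨x, hx1⟩ * E ⟨y, hy1⟩ :=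
        map_mul E ⟨x, hx1⟩ ⟨y, hy1⟩
      rw [h1]
      exact D'.mul_mem hx2 hy2
  have hDO : Algebra.adjoin ℂ (range u) ≤ O := fun d hd => (hD d hd).1
  let ι : Algebra.adjoin ℂ (range u) →ₐ[ℂ] O := Subalgebra.inclusion hDO
  let δ : Algebra.adjoin ℂ (range u) →ₐ[ℂ] D' :=
    (E.comp ι).codRestrict D' (fun d => (hD d.1 d.2).2)
  have hτD : ∀ i, IsAlgebraic D' (τ i) := by
    intro i
    refine ⟨(p i).map (δ : Algebra.adjoin ℂ (range u) →+* D'), ?_, ?_⟩
    · intro h0
      have h1 : δ (p i).leadingCoeff = 0 := by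
        have h2 : ((p i).map (δ : Algebra.adjoin ℂ (range u) →+* D')).coeff (p i).natDegree =
            0 := by rw [h0, Polynomial.coeff_zero]
        rw [Polynomial.coeff_map] at h2
        exact h2
      have h3 : E (ι (p i).leadingCoeff) = 0 := congrArg Subtype.val h1
      obtain ⟨h, h4⟩ := hc (Sum.inl i) (Finset.mem_univ _)
      refine h4 ?_ h3
      intro h5
      exact hp0 i (Polynomial.leadingCoeff_eq_zero.1 (Subtype.ext h5))
    · have hCO : RatFunc.C (τ i) ∈ O := C_mem _ _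
      have h1 : Polynomial.eval₂ (ι : Algebra.adjoin ℂ (range u) →+* O) ⟨RatFunc.C (τ i), hCO⟩
          (p i) = 0 := by
        apply Subtype.ext
        have h2 : ((Polynomial.eval₂ (ι : Algebra.adjoin ℂ (range u) →+* O)
            ⟨RatFunc.C (τ i), hCO⟩ (p i) : O) : RatFunc K) =
            Polynomial.eval₂ ((O.val : O →+* RatFunc K).comp
              (ι : Algebra.adjoin ℂ (range u) →+* O)) (RatFunc.C (τ i)) (p i) :=
          Polynomial.hom_eval₂ (p i) (ι : Algebra.adjoin ℂ (range u) →+* O)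
            (O.val : O →+* RatFunc K) ⟨RatFunc.C (τ i), hCO⟩
        rw [h2]
        exact hpr i
      have h3 := congrArg E h1
      rw [map_zero] at h3
      have h4 : E (Polynomial.eval₂ (ι : Algebra.adjoin ℂ (range u) →+* O)
          ⟨RatFunc.C (τ i), hCO⟩ (p i)) =
          Polynomial.eval₂ ((E : O →+* K).comp (ι : Algebra.adjoin ℂ (range u) →+* O))
            (E ⟨RatFunc.C (τ i), hCO⟩) (p i) :=
        Polynomial.hom_eval₂ (p i) (ι : Algebra.adjoin ℂ (range u) →+* O) (E : O →+* K)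
          ⟨RatFunc.C (τ i), hCO⟩
      rw [h4] at h3
      have h5 : E ⟨RatFunc.C (τ i), hCO⟩ = τ i := ev_C (k := ℂ) _ _
      rw [h5] at h3
      rw [Polynomial.aeval_def, Polynomial.eval₂_map]
      exact h3
  have halg : Algebra.IsAlgebraic D' K := hτ.isAlgebraic_iff.2 hτD
  have hcard : Cardinal.mk (Fin n) ≤ Algebra.trdeg ℂ K := hτ.cardinalMk_eq_trdeg.le
  have hind : AlgebraicIndependent ℂ (ψ ∘ g') := by
    have : Algebra.IsAlgebraic (Algebra.adjoin ℂ (range (ψ ∘ g'))) K := halg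
    exact (Algebra.IsAlgebraic.isTranscendenceBasis_of_le_trdeg_of_finite ℂ (ψ ∘ g') hcard).1
  have hVt : Algebra.trdeg ℂ V ≤ n :=
    (trdeg_le_of_injective V.val Subtype.val_injective).trans hL
  have hψ : Function.Injective ψ := by
    by_contra h
    exact Pool.Agent.N225.CV.drop ψ hVt h g' hind
  have hV : ∀ x : L, x ∈ V := by
    intro x
    by_contra hx
    have hx' : σ x ∉ O := hx
    obtain ⟨h1, h2⟩ := inv_mem (k := ℂ) hx'
    have h3 : x⁻¹ ∈ V := by
      show σ x⁻¹ ∈ O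
      rw [map_inv₀]
      exact h1
    have h4 : ψ ⟨x⁻¹, h3⟩ = 0 := by
      have h5 : ∀ (y : RatFunc K) (hy : y ∈ O), y = (σ x)⁻¹ → E ⟨y, hy⟩ = 0 := by
        rintro y hy rfl
        exact h2
      exact h5 _ h3 (map_inv₀ σ x)
    have h6 : (⟨x⁻¹, h3⟩ : V) = 0 := hψ (h4.trans (map_zero ψ).symm)
    have h7 : x⁻¹ = 0 := congrArg Subtype.val h6
    have h8 : x = 0 := inv_eq_zero.1 h7
    apply hx
    rw [h8]
    exact V.zero_mem
  exact ⟨ψ.comp ((AlgHom.id ℂ L).codRestrict V hV)⟩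

end

end

end Pool.Agent.N674.HNUNI
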