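import Mathlib
import Pool.Agent.N674.HN.Step
import Pool.Agent.N162.HN.Stm

set_option autoImplicit false

/-! Subfields of transcendence degree `n` of the field of rational functions in `n + 1` variables. -/

namespace Pool.Agent.N674.HNUNI

open Set

noncomputable section

lemma basis_frac (m : ℕ) : IsTranscendenceBasis ℂ
    (algebraMap (MvPolynomial (Fin m) ℂ) (FractionRing (MvPolynomial (Fin m) ℂ)) ∘
      fun i : Fin m => (MvPolynomial.X i : MvPolynomial (Fin m) ℂ)) := by
  have hal : Algebra.IsAlgebraic (MvPolynomial (Fin m) ℂ)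
      (FractionRing (MvPolynomial (Fin m) ℂ)) :=
    (IsFractionRing.comap_isAlgebraic_iff (A := MvPolynomial (Fin m) ℂ)
      (K := FractionRing (MvPolynomial (Fin m) ℂ))
      (C := FractionRing (MvPolynomial (Fin m) ℂ))).2 inferInstance
  exact (IsTranscendenceBasis.mvPolynomial (Fin m) ℂ).algebraMap_comp

/-- an embedding of the field of rational functions which maps the variable `j` to the variable
over the field of rational functions in the other variables -/
lemma exists_embed (n : ℕ) (j : Fin (n + 1)) {K : Type} [Field K] [Algebra ℂ K] {τ : Fin n → K}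
    (hτ : IsTranscendenceBasis ℂ τ) :
    ∃ Φ : FractionRing (MvPolynomial (Fin (n + 1)) ℂ) →ₐ[ℂ] RatFunc K,
      Φ (algebraMap (MvPolynomial (Fin (n + 1)) ℂ) _ (MvPolynomial.X j)) = RatFunc.X := by
  classical
  let B : Unit ⊕ Fin n → RatFunc K :=
    Sum.elim (fun _ : Unit => (RatFunc.X : RatFunc K)) (algebraMap K (RatFunc K) ∘ τ)
  have hB : AlgebraicIndependent ℂ B := (basis_ratFunc hτ).1
  let w : Fin (n + 1) → RatFunc K := fun i =>
    B ((finSuccEquiv' j i).elim (Sum.inl ()) Sum.inr)
  have hw : AlgebraicIndependent ℂ w := by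
    refine hB.comp (fun i => (finSuccEquiv' j i).elim (Sum.inl ()) Sum.inr) ?_
    intro a b hab
    apply (finSuccEquiv' j).injective
    have hab' : (finSuccEquiv' j a).elim (Sum.inl () : Unit ⊕ Fin n) Sum.inr =
        (finSuccEquiv' j b).elim (Sum.inl ()) Sum.inr := hab
    cases ha : finSuccEquiv' j a with
    | none =>
      cases hb : finSuccEquiv' j b with
      | none => rfl
      | some y =>
        rw [ha, hb] at hab'
        cases hab'
    | some x =>
      cases hb : finSuccEquiv' j b with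
      | none =>
        rw [ha, hb] at hab'
        cases hab'
      | some y =>
        rw [ha, hb] at hab'
        have : x = y := Sum.inr_injective hab'
        rw [this]
  have hinj : Function.Injective (MvPolynomial.aeval w :
      MvPolynomial (Fin (n + 1)) ℂ →ₐ[ℂ] RatFunc K) := hw
  refine ⟨IsFractionRing.liftAlgHom (g := (MvPolynomial.aeval w :
      MvPolynomial (Fin (n + 1)) ℂ →ₐ[ℂ] RatFunc K)) hinj, ?_⟩
  have h1 := IsFractionRing.liftAlgHom_apply (K := FractionRing (MvPolynomial (Fin (n + 1)) ℂ))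
    (g := (MvPolynomial.aeval w : MvPolynomial (Fin (n + 1)) ℂ →ₐ[ℂ] RatFunc K)) hinj
    (x := algebraMap (MvPolynomial (Fin (n + 1)) ℂ) _ (MvPolynomial.X j))
  rw [h1, IsFractionRing.lift_algebraMap]
  show MvPolynomial.aeval w (MvPolynomial.X j) = RatFunc.X
  rw [MvPolynomial.aeval_X]
  show B ((finSuccEquiv' j j).elim (Sum.inl ()) Sum.inr) = RatFunc.X
  rw [finSuccEquiv'_at]
  rfl

theorem uni_ : Pool.Agent.N162.HN.StUNI := by
  classical
  rintro n L _ _ _ - hL ⟨φ⟩
  let R : Type := FractionRing (MvPolynomial (Fin (n + 1)) ℂ)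
  let t : Fin (n + 1) → R := fun i =>
    algebraMap (MvPolynomial (Fin (n + 1)) ℂ) R (MvPolynomial.X i)
  have ht : IsTranscendenceBasis ℂ t := basis_frac (n + 1)
  obtain ⟨ι, x, hx⟩ := exists_isTranscendenceBasis' ℂ L
  have hι : Cardinal.mk ι = n := hx.cardinalMk_eq_trdeg.trans hL
  have hι' : Cardinal.mk (Fin n) = Cardinal.mk ι := by rw [hι]; simp
  obtain ⟨e⟩ := Cardinal.eq.1 hι'
  let g : Fin n → L := x ∘ e
  have hg : AlgebraicIndependent ℂ g := hx.1.comp e e.injective
  have ha : AlgebraicIndependent ℂ (φ ∘ g) := hg.map' φ.toRingHom.injective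
  obtain ⟨j, hj⟩ : ∃ j, ¬ IsAlgebraic (Algebra.adjoin ℂ (range (φ ∘ g))) (t j) := by
    by_contra h
    push Not at h
    have h1 : Algebra.IsAlgebraic (Algebra.adjoin ℂ (range (φ ∘ g))) R :=
      ht.isAlgebraic_iff.2 h
    have h2 := Algebra.IsAlgebraic.trdeg_le_cardinalMk ℂ (range (φ ∘ g))
    have h3 : Algebra.trdeg ℂ R = ((n + 1 : ℕ) : Cardinal) := by
      rw [← ht.cardinalMk_eq_trdeg]
      simp
    have h4 : Cardinal.mk (range (φ ∘ g)) ≤ (n : ℕ) := by
      have h5 := Cardinal.mk_range_le (f := φ ∘ g)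
      simpa using h5
    rw [h3] at h2
    have h6 : ((n + 1 : ℕ) : Cardinal) ≤ (n : ℕ) := h2.trans h4
    have h7 : n + 1 ≤ n := by exact_mod_cast h6
    omega
  have hu : AlgebraicIndependent ℂ (fun o : Option (Fin n) => o.elim (t j) (φ ∘ g)) :=
    (ha.option_iff_transcendental (t j)).2 hj
  obtain ⟨Φ, hΦ⟩ := exists_embed n j (basis_frac n)
  have hu' := hu.map' (f := Φ) Φ.toRingHom.injective
  have he : (Φ ∘ fun o : Option (Fin n) => o.elim (t j) (φ ∘ g)) =
      fun o : Option (Fin n) => o.elim RatFunc.X ((Φ.comp φ) ∘ g) := by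
    funext o
    cases o with
    | none => exact hΦ
    | some k => rfl
  rw [he] at hu'
  exact step (basis_frac n) hL.le (Φ.comp φ) g hu'

end

end Pool.Agent.N674.HNUNI
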